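import Pool.Agent.Lib.MP_edb5be_nt.ND.Iface2
import Pool.Agent.Lib.MP_edb5be_nt.ND.H38.ZDen

/-!
Project ND, module ZPOP: almost every integer prime to 3 is reached by a positive proportion of
all integers (on the integers, from the statement on dyadic blocks).
-/

set_option autoImplicit false
set_option linter.all false

namespace Pool.Agent.Lib.MP_edb5be_nt.ND.H30

open Finset Pool.Agent.Lib.MP_0a5adf_nt.TP Filter Topology

/-- The exceptional natural numbers. -/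
def Gex (d : Bool) (δ : ℝ) : Set ℕ :=
  {M : ℕ | 1 ≤ M ∧ ¬ 3 ∣ M ∧ ∃ D : ℝ, HasDensN (Hit d {M}) D ∧ D < δ / M}

theorem hasDens_hit (d : Bool) (M : ℕ) (D : ℝ)
    (h : HasDens d {n : ℤ | ∃ i : ℕ, TZ^[i] n = sg d * (M : ℤ)} D) :
    HasDensN (Hit d {M}) D := by
  unfold HasDens at h
  unfold HasDensN
  refine h.congr fun X => ?_
  rw [H38.cnt_eq]
  congr 3
  ext N
  constructor
  · rintro ⟨⟨i, hi⟩, h2⟩
    refine ⟨⟨i, ?_⟩, h2⟩
    rw [H38.tz_sg_iter] at hi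
    exact H38.sg_inj d hi
  · rintro ⟨⟨i, hi⟩, h2⟩
    refine ⟨⟨i, ?_⟩, h2⟩
    have hi' : (T d)^[i] N = M := hi
    rw [H38.tz_sg_iter, hi']

theorem finite_lt (S : Set ℕ) (n : ℕ) : (S ∩ {M : ℕ | M < n}).Finite :=
  (Set.finite_lt_nat n).subset Set.inter_subset_right

theorem three_dvd_sg (d : Bool) (M : ℕ) : (3 : ℤ) ∣ sg d * (M : ℤ) ↔ 3 ∣ M := by
  cases d
  · simp only [sg]
    constructor
    · intro h
      have h' : (3 : ℤ) ∣ (M : ℤ) := by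
        have := h
        simpa using this
      exact_mod_cast h'
    · intro h
      have h' : (3 : ℤ) ∣ (M : ℤ) := by exact_mod_cast h
      simpa using h'
  · simp only [sg]
    constructor
    · intro h
      have h' : (3 : ℤ) ∣ (M : ℤ) := by simpa using h
      exact_mod_cast h'
    · intro h
      have h' : (3 : ℤ) ∣ (M : ℤ) := by exact_mod_cast h
      simpa using h'

/-- Summation over dyadic blocks. -/
theorem blocks (d : Bool) (ε δ : ℝ) (hε : 0 < ε) (hδ : 0 < δ) (k₀ : ℕ)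
    (H : ∀ k : ℕ, k₀ ≤ k → ({M : ℕ | 2 ^ k ≤ M ∧ M < 2 ^ (k + 1) ∧ ¬ 3 ∣ M ∧
      ∃ D : ℝ, HasDensN (Hit d {M}) D ∧ D < δ / 2 ^ k}.ncard : ℝ) ≤ ε * 2 ^ k) (j : ℕ) :
    ((Gex d δ ∩ {M : ℕ | M < 2 ^ j}).ncard : ℝ) ≤ 2 ^ k₀ + ε * 2 ^ j := by
  have hbase : ∀ j : ℕ, j ≤ k₀ → ((Gex d δ ∩ {M : ℕ | M < 2 ^ j}).ncard : ℝ) ≤
      2 ^ k₀ + ε * 2 ^ j := by
    intro j hj
    have h1 : (Gex d δ ∩ {M : ℕ | M < 2 ^ j}).ncard ≤ 2 ^ j := by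
      have h2 := Set.ncard_le_ncard (Set.inter_subset_right (s := Gex d δ)
        (t := {M : ℕ | M < 2 ^ j})) (Set.finite_lt_nat _)
      refine h2.trans ?_
      have h3 : {M : ℕ | M < 2 ^ j} = ((range (2 ^ j) : Finset ℕ) : Set ℕ) := by
        ext M; simp
      rw [h3, Set.ncard_coe_finset, card_range]
    have h2 : ((2 ^ j : ℕ) : ℝ) ≤ 2 ^ k₀ := by
      push_cast
      exact pow_le_pow_right₀ (by norm_num) hj
    have h3 : ((Gex d δ ∩ {M : ℕ | M < 2 ^ j}).ncard : ℝ) ≤ ((2 ^ j : ℕ) : ℝ) := by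
      exact_mod_cast h1
    have h4 : 0 ≤ ε * 2 ^ j := by positivity
    linarith
  induction j with
  | zero => exact hbase 0 (Nat.zero_le _)
  | succ j ih =>
    rcases Nat.lt_or_ge j k₀ with hj | hj
    · exact hbase (j + 1) hj
    · have hsub : Gex d δ ∩ {M : ℕ | M < 2 ^ (j + 1)} ⊆
          (Gex d δ ∩ {M : ℕ | M < 2 ^ j}) ∪ {M : ℕ | 2 ^ j ≤ M ∧ M < 2 ^ (j + 1) ∧ ¬ 3 ∣ M ∧
            ∃ D : ℝ, HasDensN (Hit d {M}) D ∧ D < δ / 2 ^ j} := by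
        rintro M ⟨⟨h1, h2, D, h3, h4⟩, h5⟩
        by_cases h6 : M < 2 ^ j
        · exact Or.inl ⟨⟨h1, h2, D, h3, h4⟩, h6⟩
        · refine Or.inr ⟨not_lt.1 h6, h5, h2, D, h3, lt_of_lt_of_le h4 ?_⟩
          have h7 : ((2 ^ j : ℕ) : ℝ) ≤ (M : ℝ) := by exact_mod_cast not_lt.1 h6
          push_cast at h7
          exact div_le_div_of_nonneg_left hδ.le (by positivity) h7
      have hfin : ((Gex d δ ∩ {M : ℕ | M < 2 ^ j}) ∪ {M : ℕ | 2 ^ j ≤ M ∧ M < 2 ^ (j + 1) ∧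
          ¬ 3 ∣ M ∧ ∃ D : ℝ, HasDensN (Hit d {M}) D ∧ D < δ / 2 ^ j}).Finite :=
        (finite_lt _ _).union ((Set.finite_lt_nat (2 ^ (j + 1))).subset fun M h => h.2.1)
      have h1 := (Set.ncard_le_ncard hsub hfin).trans (Set.ncard_union_le _ _)
      have h2 : ((Gex d δ ∩ {M : ℕ | M < 2 ^ (j + 1)}).ncard : ℝ) ≤
          ((Gex d δ ∩ {M : ℕ | M < 2 ^ j}).ncard : ℝ) +
            ({M : ℕ | 2 ^ j ≤ M ∧ M < 2 ^ (j + 1) ∧ ¬ 3 ∣ M ∧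
              ∃ D : ℝ, HasDensN (Hit d {M}) D ∧ D < δ / 2 ^ j}.ncard : ℝ) := by
        exact_mod_cast h1
      have h3 := H j hj
      have e : ε * (2 : ℝ) ^ (j + 1) = ε * 2 ^ j + ε * 2 ^ j := by ring
      rw [e]
      linarith

/-- ZPOP. -/
theorem zpop (h : PopStatement) : ZPopStatement := by
  intro ε hε
  obtain ⟨δ, hδ, k₀, H⟩ := h (ε / 4) (by positivity)
  refine ⟨δ, hδ, max 1 (2 ^ (k₀ + 1) / ε), fun d X hX => ?_⟩
  have hX1 : (1 : ℝ) ≤ X := (le_max_left _ _).trans hX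
  have hX2 : (2 : ℝ) ^ (k₀ + 1) / ε ≤ X := (le_max_right _ _).trans hX
  set n : ℕ := ⌊X⌋₊ with hn
  have hn1 : 1 ≤ n := Nat.le_floor (by exact_mod_cast hX1)
  set K : ℕ := Nat.log 2 n with hK
  have hK1 : 2 ^ K ≤ n := Nat.pow_log_le_self 2 (by omega)
  have hK2 : n < 2 ^ (K + 1) := Nat.lt_pow_succ_log_self (by norm_num) n
  have hsub : {x : ℤ | 0 < sg d * x ∧ ((sg d * x : ℤ) : ℝ) ≤ X ∧ ¬ (3 : ℤ) ∣ x ∧
      ∃ D : ℝ, HasDens d {n : ℤ | ∃ i : ℕ, TZ^[i] n = x} D ∧ D < δ / |(x : ℝ)|} ⊆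
      (fun N : ℕ => sg d * (N : ℤ)) '' (Gex d δ ∩ {M : ℕ | M < 2 ^ (K + 1)}) := by
    rintro x ⟨h1, h2, h3, D, h4, h5⟩
    have hx : sg d * (((sg d * x).toNat : ℕ) : ℤ) = x := by
      rw [Int.toNat_of_nonneg h1.le, H38.sg_sg]
    set M : ℕ := (sg d * x).toNat with hM
    rw [← hx] at h3 h4 h5
    rw [H38.abs_sg] at h5
    rw [three_dvd_sg] at h3
    refine ⟨M, ⟨⟨?_, h3, D, hasDens_hit d M D h4, h5⟩, ?_⟩, hx⟩
    · omega
    · show M < 2 ^ (K + 1)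
      refine lt_of_le_of_lt ?_ hK2
      refine Nat.le_floor ?_
      have h6 : ((M : ℤ) : ℝ) = ((sg d * x : ℤ) : ℝ) := by
        rw [hM, Int.toNat_of_nonneg h1.le]
      rw [← Int.cast_natCast, h6]
      exact h2
  have hfin := finite_lt (Gex d δ) (2 ^ (K + 1))
  have h1 := (Set.ncard_le_ncard hsub (hfin.image _)).trans (Set.ncard_image_le hfin)
  have h2 := blocks d (ε / 4) δ (by positivity) hδ k₀ (fun k hk => H d k hk) (K + 1)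
  have h3 : ((2 ^ K : ℕ) : ℝ) ≤ X := by
    have h4 : ((2 ^ K : ℕ) : ℝ) ≤ (n : ℝ) := by exact_mod_cast hK1
    exact h4.trans (Nat.floor_le (by linarith))
  push_cast at h3
  have h4 : (2 : ℝ) ^ (k₀ + 1) ≤ ε * X := by
    rw [div_le_iff₀ hε] at hX2
    linarith
  have h5 : ((({x : ℤ | 0 < sg d * x ∧ ((sg d * x : ℤ) : ℝ) ≤ X ∧ ¬ (3 : ℤ) ∣ x ∧
      ∃ D : ℝ, HasDens d {n : ℤ | ∃ i : ℕ, TZ^[i] n = x} D ∧ D < δ / |(x : ℝ)|}).ncard : ℕ) : ℝ) ≤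
      ((Gex d δ ∩ {M : ℕ | M < 2 ^ (K + 1)}).ncard : ℝ) := by exact_mod_cast h1
  refine h5.trans (h2.trans ?_)
  have e1 : (2 : ℝ) ^ (k₀ + 1) = 2 * 2 ^ k₀ := by ring
  have e2 : ε / 4 * (2 : ℝ) ^ (K + 1) = ε / 2 * 2 ^ K := by ring
  rw [e1] at h4
  rw [e2]
  have h6 : ε / 2 * 2 ^ K ≤ ε / 2 * X := mul_le_mul_of_nonneg_left h3 (by positivity)
  linarith

end Pool.Agent.Lib.MP_edb5be_nt.ND.H30
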